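import Pool.Agent.Helper12.GM.Stmts

/-! # Module CNT: final counting of part (B) -/

open scoped ENNReal UpperHalfPlane MatrixGroups Topology
open UpperHalfPlane Real Filter

namespace Pool.Agent.Helper12.GM

variable {Γ : Type} [Group Γ]

theorem cnt_F (Q : Geo Γ) (F : Γ → ℝ) (hF : GF Q F) (g : Γ) :
    F g = Real.exp (-uu Q F g - Q.L g) := by
  unfold uu
  rw [show -(-Real.log (F g) - Q.L g) - Q.L g = Real.log (F g) by ring,
    Real.exp_log (hF.pos g)]

theorem cnt_shell (Q : Geo Γ) (F : Γ → ℝ) (C' : ℝ)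
    (hC : ∀ (t : ℝ) (T : Finset Γ), (∀ g ∈ T, t ≤ Q.L g ∧ Q.L g ≤ t + 1) → ∑ g ∈ T, F g ≤ C')
    (t w : ℝ) (hw : 0 ≤ w) (T : Finset Γ) (hT : ∀ g ∈ T, t ≤ Q.L g ∧ Q.L g ≤ t + w) :
    ∑ g ∈ T, F g ≤ (w + 1) * C' := by
  have h0 : 0 ≤ C' := by
    have := hC 0 ∅ (by simp)
    simpa using this
  have h1 : ∀ g ∈ T, ⌊Q.L g - t⌋₊ ∈ Finset.range (⌊w⌋₊ + 1) := by
    intro g hg
    rw [Finset.mem_range, Nat.lt_succ_iff]
    exact Nat.floor_le_floor (by linarith [(hT g hg).2])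
  rw [← Finset.sum_fiberwise_of_maps_to h1]
  have h2 : ∀ j ∈ Finset.range (⌊w⌋₊ + 1), ∑ g ∈ T with ⌊Q.L g - t⌋₊ = j, F g ≤ C' := by
    intro j _
    refine hC (t + j) _ fun g hg => ?_
    rw [Finset.mem_filter] at hg
    have h3 := hT g hg.1
    have h4 : 0 ≤ Q.L g - t := by linarith [h3.1]
    have h5 := Nat.floor_le h4
    have h6 := Nat.lt_floor_add_one (Q.L g - t)
    rw [hg.2] at h5 h6
    constructor <;> linarith
  refine (Finset.sum_le_sum h2).trans ?_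
  rw [Finset.sum_const, Finset.card_range, nsmul_eq_mul]
  refine mul_le_mul_of_nonneg_right ?_ h0
  push_cast
  linarith [Nat.floor_le hw]

theorem cnt_count (Q : Geo Γ) (F : Γ → ℝ) (hF : GF Q F) (C' : ℝ)
    (hC : ∀ (t : ℝ) (T : Finset Γ), (∀ g ∈ T, t ≤ Q.L g ∧ Q.L g ≤ t + 1) → ∑ g ∈ T, F g ≤ C')
    (t w B : ℝ) (hw : 0 ≤ w) (T : Finset Γ) (hT : ∀ g ∈ T, t ≤ Q.L g ∧ Q.L g ≤ t + w)
    (hB : ∀ g ∈ T, uu Q F g ≤ -B) :
    (T.card : ℝ) ≤ (w + 1) * C' * Real.exp (t + w - B) := by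
  have h1 := cnt_shell Q F C' hC t w hw T hT
  have h2 : (T.card : ℝ) * Real.exp (B - (t + w)) ≤ ∑ g ∈ T, F g := by
    rw [← nsmul_eq_mul, ← Finset.sum_const]
    refine Finset.sum_le_sum fun g hg => ?_
    rw [cnt_F Q F hF g]
    exact Real.exp_le_exp.2 (by linarith [hB g hg, (hT g hg).2])
  have h3 := h2.trans h1
  have h4 : Real.exp (B - (t + w)) * Real.exp (t + w - B) = 1 := by
    rw [← Real.exp_add]; simp
  calc (T.card : ℝ) = (T.card : ℝ) * Real.exp (B - (t + w)) * Real.exp (t + w - B) := by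
        rw [mul_assoc, h4, mul_one]
    _ ≤ (w + 1) * C' * Real.exp (t + w - B) :=
        mul_le_mul_of_nonneg_right h3 (Real.exp_pos _).le

/-- Module CNT. -/
theorem st_CNT (hOCC : ST_OCC) (hFIB : ST_FIB) (hQADD : ST_QADD) (hSHELL : ST_SHELL) :
    ST_CNT := by
  classical
  intro Γ _ Q F hF hsym c₅ hc₅
  obtain ⟨Cs, hCs⟩ := hsym
  obtain ⟨C', hC'⟩ := hSHELL Q F hF
  obtain ⟨C₁, Co, N, hC₁, hCo, hN, hfib⟩ := hFIB Q
  obtain ⟨hq1, hq2⟩ := hQADD Q F hF
  obtain ⟨K₁, hK₁⟩ := hq1 C₁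
  obtain ⟨K₂, hK₂⟩ := hq2 (∑ f ∈ Q.F, Q.L f)
  obtain ⟨C'', hC''0, hC''⟩ := hOCC Q Q.C Co (by linarith [Q.one_le_C]) hCo
  have hC0 : 0 ≤ C' := by
    have := hC' 0 ∅ (by simp)
    simpa using this
  have hC1 := Q.one_le_C
  have hCpos : 0 < Q.C := by linarith
  -- A₀
  obtain ⟨A₀, hA₀⟩ : ∃ A₀ : ℝ, (2 * Q.C + 1) * C' * Real.exp (Q.C - A₀) ≤ 1 / (4 * Q.C) := by
    have h1 : Tendsto (fun A : ℝ => (2 * Q.C + 1) * C' * Real.exp (Q.C - A)) atTop
        (𝓝 ((2 * Q.C + 1) * C' * 0)) := by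
      refine Tendsto.const_mul _ ?_
      refine Real.tendsto_exp_atBot.comp ?_
      exact tendsto_atBot_add_const_left _ _ tendsto_neg_atTop_atBot
    rw [mul_zero] at h1
    obtain ⟨A, hA⟩ := (h1.eventually (ge_mem_nhds
      (show (0 : ℝ) < 1 / (4 * Q.C) by positivity))).exists
    exact ⟨A, hA⟩
  -- δ
  set δ : ℝ := 1 / (8 * Q.C * (C'' + 1)) with hδ
  have hδpos : 0 < δ := by positivity
  have hδ1 : C'' * δ ≤ 1 / (8 * Q.C) := by
    rw [hδ, mul_one_div, div_le_div_iff₀ (by positivity) (by positivity)]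
    nlinarith
  set K₃ : ℝ := A₀ + 3 * K₁ + 2 * K₂ with hK₃
  set K₄ : ℝ := (2 * C₁ + 1) * C' * Real.exp (C₁ + K₃ + Cs) with hK₄
  have hK₄0 : 0 ≤ K₄ := by positivity
  set K₅ : ℝ := 2 * Q.C * (N * K₄) with hK₅
  -- eventual conditions
  have hev : ∀ᶠ H : ℝ in atTop, C'' * Real.exp (-H) ≤ 1 / (8 * Q.C) ∧ Q.C ≤ δ * Real.exp H ∧
      Q.C * Real.exp (-H) + K₅ * ((H + 1) * Real.exp (-(c₅ * H))) < δ ∧ 0 ≤ H := by
    have e0 : Tendsto (fun H : ℝ => Real.exp (-H)) atTop (𝓝 0) := Real.tendsto_exp_neg_atTop_nhds_zero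
    have e1 : Tendsto (fun H : ℝ => C'' * Real.exp (-H)) atTop (𝓝 0) := by
      simpa using e0.const_mul C''
    have e2 : Tendsto (fun H : ℝ => δ * Real.exp H) atTop atTop :=
      Real.tendsto_exp_atTop.const_mul_atTop hδpos
    have e3 : Tendsto (fun H : ℝ => (H + 1) * Real.exp (-(c₅ * H))) atTop (𝓝 0) := by
      have a1 : Tendsto (fun H : ℝ => (c₅ * H) ^ 1 * Real.exp (-(c₅ * H))) atTop (𝓝 0) :=
        (Real.tendsto_pow_mul_exp_neg_atTop_nhds_zero 1).comp (tendsto_id.const_mul_atTop hc₅)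
      have a2 : Tendsto (fun H : ℝ => Real.exp (-(c₅ * H))) atTop (𝓝 0) :=
        Real.tendsto_exp_neg_atTop_nhds_zero.comp (tendsto_id.const_mul_atTop hc₅)
      have a3 := (a1.const_mul c₅⁻¹).add a2
      rw [mul_zero, add_zero] at a3
      refine a3.congr fun H => ?_
      rw [pow_one, ← mul_assoc, ← mul_assoc, inv_mul_cancel₀ hc₅.ne']
      ring
    have e4 : Tendsto (fun H : ℝ => Q.C * Real.exp (-H) +
        K₅ * ((H + 1) * Real.exp (-(c₅ * H)))) atTop (𝓝 0) := by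
      simpa using (e0.const_mul Q.C).add (e3.const_mul K₅)
    filter_upwards [e1.eventually (ge_mem_nhds (show (0 : ℝ) < 1 / (8 * Q.C) by positivity)),
      e2.eventually_ge_atTop Q.C, e4.eventually (gt_mem_nhds hδpos),
      eventually_ge_atTop (0 : ℝ)] with H b1 b2 b3 b4
    exact ⟨b1, b2, b3, b4⟩
  obtain ⟨H₀, hH₀⟩ := eventually_atTop.1 hev
  refine ⟨H₀, fun h hh => ?_⟩
  by_contra hcon
  rw [not_lt] at hcon
  obtain ⟨g1, g2, g3, g4⟩ := hH₀ (Q.L h) hh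
  set H : ℝ := Q.L h with hH
  set t : ℝ := δ * Real.exp H with ht
  have ht0 : 0 ≤ t := by positivity
  obtain ⟨ins, hins1, hins2⟩ := hfib h t ht0
  -- the finite sets
  set S : Finset Γ := (Q.fin (t + Q.C)).toFinset.filter (fun g => t - Q.C ≤ Q.L g) with hS
  have hmemS : ∀ g, g ∈ S ↔ t - Q.C ≤ Q.L g ∧ Q.L g ≤ t + Q.C := by
    intro g
    rw [hS, Finset.mem_filter, Set.Finite.mem_toFinset]
    exact and_comm
  have hScard : Real.exp t ≤ Q.C * (S.card : ℝ) := by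
    have h1 := Q.lower t ht0
    have h2 : {g | t - Q.C ≤ Q.L g ∧ Q.L g ≤ t + Q.C} = (S : Set Γ) := by
      ext g
      rw [Finset.mem_coe, hmemS]
      rfl
    rw [h2, Set.ncard_coe_finset] at h1
    exact h1
  set S1 : Finset Γ := S.filter (fun g => uu Q F g < -A₀) with hS1
  set S2 : Finset Γ := S.filter (fun g => Occ Q h Co g) with hS2
  set G : Finset Γ := S.filter (fun g => ¬ uu Q F g < -A₀ ∧ ¬ Occ Q h Co g) with hG
  have hexpt := Real.exp_pos t
  have hc1 : (S1.card : ℝ) ≤ Real.exp t / (4 * Q.C) := by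
    have h1 := cnt_count Q F hF C' hC' (t - Q.C) (2 * Q.C) A₀ (by linarith) S1
      (fun g hg => by
        rw [hS1, Finset.mem_filter, hmemS] at hg
        exact ⟨hg.1.1, by linarith [hg.1.2]⟩)
      (fun g hg => by
        rw [hS1, Finset.mem_filter] at hg
        exact hg.2.le)
    have h2 : Real.exp (t - Q.C + 2 * Q.C - A₀) = Real.exp (Q.C - A₀) * Real.exp t := by
      rw [← Real.exp_add]; congr 1; ring
    rw [h2] at h1
    calc (S1.card : ℝ) ≤ (2 * Q.C + 1) * C' * (Real.exp (Q.C - A₀) * Real.exp t) := h1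
      _ = ((2 * Q.C + 1) * C' * Real.exp (Q.C - A₀)) * Real.exp t := by ring
      _ ≤ 1 / (4 * Q.C) * Real.exp t := mul_le_mul_of_nonneg_right hA₀ hexpt.le
      _ = Real.exp t / (4 * Q.C) := by ring
  have hc2 : (S2.card : ℝ) ≤ Real.exp t / (4 * Q.C) := by
    have h1 := hC'' h t ht0
    have h2 : (S2.card : ℝ) ≤ ({g | Q.L g ≤ t + Q.C ∧ Occ Q h Co g}.ncard : ℝ) := by
      rw [← Set.ncard_coe_finset]
      have h3 : ({g | Q.L g ≤ t + Q.C ∧ Occ Q h Co g}).Finite :=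
        (Q.fin (t + Q.C)).subset fun g hg => hg.1
      have h4 : (S2 : Set Γ) ⊆ {g | Q.L g ≤ t + Q.C ∧ Occ Q h Co g} := by
        intro g hg
        rw [Finset.mem_coe, hS2, Finset.mem_filter, hmemS] at hg
        exact ⟨hg.1.2, hg.2⟩
      exact_mod_cast Set.ncard_le_ncard h4 h3
    refine (h2.trans h1).trans ?_
    have h4 : Real.exp (t - Q.L h) = Real.exp (-H) * Real.exp t := by
      rw [← Real.exp_add]; congr 1; rw [hH]; ring
    rw [h4]
    have h5 : Real.exp H * Real.exp (-H) = 1 := by rw [← Real.exp_add]; simp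
    calc C'' * (t + 1) * (Real.exp (-H) * Real.exp t)
        = (C'' * δ * (Real.exp H * Real.exp (-H)) + C'' * Real.exp (-H)) * Real.exp t := by
          rw [ht]; ring
      _ = (C'' * δ + C'' * Real.exp (-H)) * Real.exp t := by rw [h5, mul_one]
      _ ≤ (1 / (8 * Q.C) + 1 / (8 * Q.C)) * Real.exp t :=
          mul_le_mul_of_nonneg_right (add_le_add hδ1 g1) hexpt.le
      _ = Real.exp t / (4 * Q.C) := by field_simp; norm_num
  have hGcard : Real.exp t / (2 * Q.C) ≤ (G.card : ℝ) := by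
    have h1 : S ⊆ S1 ∪ S2 ∪ G := by
      intro g hg
      rw [Finset.mem_union, Finset.mem_union]
      by_cases h2 : uu Q F g < -A₀
      · exact Or.inl (Or.inl (Finset.mem_filter.2 ⟨hg, h2⟩))
      · by_cases h3 : Occ Q h Co g
        · exact Or.inl (Or.inr (Finset.mem_filter.2 ⟨hg, h3⟩))
        · exact Or.inr (Finset.mem_filter.2 ⟨hg, h2, h3⟩)
    have h2 : (S.card : ℝ) ≤ S1.card + S2.card + G.card := by
      have h3 := (Finset.card_le_card h1).trans (Finset.card_union_le _ _)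
      have h4 := Finset.card_union_le S1 S2
      exact_mod_cast h3.trans (Nat.add_le_add_right h4 _)
    have h3 : Real.exp t / Q.C ≤ (S.card : ℝ) := by
      rw [div_le_iff₀ hCpos]; linarith
    have h4 : Real.exp t / Q.C = Real.exp t / (4 * Q.C) + Real.exp t / (4 * Q.C) +
        Real.exp t / (2 * Q.C) := by field_simp; norm_num
    linarith
  -- the pairs
  set P : Finset (Γ × ℕ) := G ×ˢ Finset.range (⌊t - Q.C⌋₊ + 1) with hP
  have htC : 0 ≤ t - Q.C := by linarith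
  have hi : ∀ i ∈ Finset.range (⌊t - Q.C⌋₊ + 1), (i : ℝ) ≤ t - Q.C := by
    intro i hi
    rw [Finset.mem_range, Nat.lt_succ_iff] at hi
    exact (Nat.le_floor_iff htC).1 hi
  have hPcard : Real.exp t / (2 * Q.C) * (t - Q.C) ≤ (P.card : ℝ) := by
    rw [hP, Finset.card_product, Finset.card_range]
    push_cast
    refine mul_le_mul hGcard (Nat.lt_floor_add_one _).le htC (by positivity)
  set T' : Finset Γ := P.image (fun p => ins p.1 p.2) with hT'
  have hfibc : (P.card : ℝ) ≤ N * (H + 1) * T'.card := by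
    have h1 := Finset.card_le_mul_card_image (f := fun p : Γ × ℕ => ins p.1 p.2) P
      ⌊N * (H + 1)⌋₊ (fun g' _ => by
        refine Nat.le_floor ?_
        refine le_trans ?_ (hins2 g')
        rw [← Set.ncard_coe_finset]
        have h3 : ({p : Γ × ℕ | t - Q.C ≤ Q.L p.1 ∧ Q.L p.1 ≤ t + Q.C ∧ (p.2 : ℝ) ≤ t - Q.C ∧
            ¬ Occ Q h Co p.1 ∧ ins p.1 p.2 = g'}).Finite := by
          refine ((Q.fin (t + Q.C)).prod (Set.finite_Iic ⌊t - Q.C⌋₊)).subset ?_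
          intro p hp
          exact ⟨hp.2.1, (Nat.le_floor_iff htC).2 hp.2.2.1⟩
        have h4 : ((P.filter (fun p => ins p.1 p.2 = g') : Finset (Γ × ℕ)) : Set (Γ × ℕ)) ⊆
            {p : Γ × ℕ | t - Q.C ≤ Q.L p.1 ∧ Q.L p.1 ≤ t + Q.C ∧ (p.2 : ℝ) ≤ t - Q.C ∧
            ¬ Occ Q h Co p.1 ∧ ins p.1 p.2 = g'} := by
          intro p hp
          rw [Finset.mem_coe, Finset.mem_filter, hP, Finset.mem_product, hG, Finset.mem_filter,
            hmemS] at hp
          exact ⟨hp.1.1.1.1, hp.1.1.1.2, hi _ hp.1.2, hp.1.1.2.2, hp.2⟩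
        exact_mod_cast Set.ncard_le_ncard h4 h3)
    have h2 : ((⌊N * (H + 1)⌋₊ : ℕ) : ℝ) ≤ N * (H + 1) := Nat.floor_le (by positivity)
    calc (P.card : ℝ) ≤ ((⌊N * (H + 1)⌋₊ * T'.card : ℕ) : ℝ) := by exact_mod_cast h1
      _ = (⌊N * (H + 1)⌋₊ : ℝ) * T'.card := by push_cast; ring
      _ ≤ N * (H + 1) * T'.card := mul_le_mul_of_nonneg_right h2 (by positivity)
  -- elements of T'
  have hT'p : ∀ g' ∈ T', t + H - C₁ ≤ Q.L g' ∧ Q.L g' ≤ t + H + C₁ ∧
      c₅ * H - K₃ ≤ uu Q F g' := by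
    intro g' hg'
    rw [hT', Finset.mem_image] at hg'
    obtain ⟨⟨g, i⟩, hgi, rfl⟩ := hg'
    rw [hP, Finset.mem_product, hG, Finset.mem_filter, hmemS] at hgi
    obtain ⟨x, f, f', y, e1, hf, hf', e2, l1, l2, l3, l4, l5⟩ :=
      hins1 g i hgi.1.1.1 hgi.1.1.2 (hi _ hgi.2)
    have hLf : ∀ f ∈ Q.F, Q.L f ≤ ∑ f ∈ Q.F, Q.L f := fun f hf =>
      Finset.single_le_sum (f := fun f => Q.L f) (fun f _ => Q.nonneg f) hf
    have a1 := abs_le.1 (hK₁ x y (by rw [← e1]; exact l1))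
    have a2 := abs_le.1 (hK₁ (x * f) h l2)
    have a3 := abs_le.1 (hK₁ (x * f * h) (f' * y) (by rw [← mul_assoc]; exact l3))
    have a4 := abs_le.1 (hK₂ x f (hLf f hf)).1
    have a5 := abs_le.1 (hK₂ y f' (hLf f' hf')).2
    have a6 : -A₀ ≤ uu Q F g := not_lt.1 hgi.1.2.1
    refine ⟨l4, l5, ?_⟩
    change c₅ * H - K₃ ≤ uu Q F (ins g i)
    rw [← e1] at a1
    rw [← mul_assoc] at a3
    rw [e2]
    have a7 : c₅ * H ≤ uu Q F h := hcon
    rw [hK₃]
    linarith [a1.1, a1.2, a2.1, a3.1, a4.1, a5.1]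
  have hT'card : (T'.card : ℝ) ≤ K₄ * (Real.exp t * Real.exp H * Real.exp (-(c₅ * H))) := by
    have h1 := cnt_count Q F hF C' hC' (t + H - C₁) (2 * C₁) (c₅ * H - K₃ - Cs) (by linarith)
      (T'.image (fun g => g⁻¹))
      (fun g hg => by
        rw [Finset.mem_image] at hg
        obtain ⟨g', hg', rfl⟩ := hg
        rw [Q.inv]
        have := hT'p g' hg'
        exact ⟨this.1, by linarith [this.2.1]⟩)
      (fun g hg => by
        rw [Finset.mem_image] at hg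
        obtain ⟨g', hg', rfl⟩ := hg
        have h2 := (hT'p g' hg').2.2
        have h3 := (abs_le.1 (hCs g')).2
        linarith)
    rw [Finset.card_image_of_injective _ inv_injective] at h1
    refine h1.trans (le_of_eq ?_)
    have h2 : Real.exp (t + H - C₁ + 2 * C₁ - (c₅ * H - K₃ - Cs)) =
        Real.exp (C₁ + K₃ + Cs) * (Real.exp t * Real.exp H * Real.exp (-(c₅ * H))) := by
      rw [← Real.exp_add, ← Real.exp_add, ← Real.exp_add]
      congr 1
      ring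
    rw [h2, hK₄]
    ring
  -- the contradiction
  have hfin1 : Real.exp t / (2 * Q.C) * (t - Q.C) ≤
      N * (H + 1) * (K₄ * (Real.exp t * Real.exp H * Real.exp (-(c₅ * H)))) :=
    (hPcard.trans hfibc).trans (mul_le_mul_of_nonneg_left hT'card (by positivity))
  have hfin2 : t - Q.C ≤ K₅ * ((H + 1) * Real.exp (-(c₅ * H))) * Real.exp H := by
    have h1 : 0 < Real.exp t / (2 * Q.C) := by positivity
    refine le_of_mul_le_mul_left ?_ h1
    refine hfin1.trans (le_of_eq ?_)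
    rw [hK₅]
    field_simp
  have h5 : Real.exp (-H) * Real.exp H = 1 := by rw [← Real.exp_add]; simp
  have h6 : (Q.C * Real.exp (-H) + K₅ * ((H + 1) * Real.exp (-(c₅ * H)))) * Real.exp H <
      δ * Real.exp H := mul_lt_mul_of_pos_right g3 (Real.exp_pos _)
  have h7 : (Q.C * Real.exp (-H) + K₅ * ((H + 1) * Real.exp (-(c₅ * H)))) * Real.exp H =
      Q.C + K₅ * ((H + 1) * Real.exp (-(c₅ * H))) * Real.exp H := by
    rw [add_mul, mul_assoc Q.C, h5, mul_one]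
  rw [h7, ← ht] at h6
  linarith

end Pool.Agent.Helper12.GM
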