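import Pool.Agent.Helper12.GM.LibF

/-! # Module DEN: density of the fixed points of the elements of `Pos` -/

open scoped ENNReal UpperHalfPlane MatrixGroups Topology
open UpperHalfPlane Real Filter

namespace Pool.Agent.Helper12.GM

variable {Γ : Type} [Group Γ]

theorem den_I_im (A : SL(2, ℝ)) :
    (A • (I : ℍ)).im * (A.1 1 0 ^ 2 + A.1 1 1 ^ 2) = 1 := by
  have h := sl_im A I
  have h2 := sl_den_pos A I
  simp only [UpperHalfPlane.I_im, UpperHalfPlane.I_re, mul_zero, zero_add, mul_one] at h h2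
  rw [h, div_mul_eq_mul_div, one_mul, div_eq_one_iff_eq (by linarith)]
  ring

theorem den_row (A : SL(2, ℝ)) :
    A.1 0 0 - (A • (I : ℍ)).re * A.1 1 0 = (A • (I : ℍ)).im * A.1 1 1 ∧
    A.1 0 1 - (A • (I : ℍ)).re * A.1 1 1 = -((A • (I : ℍ)).im * A.1 1 0) := by
  have h := sl_im A I
  have h1 := sl_re A I
  have h2 := sl_den_pos A I
  have hdet := A.det_coe
  rw [Matrix.det_fin_two] at hdet
  simp only [UpperHalfPlane.I_im, UpperHalfPlane.I_re, mul_zero, zero_add, mul_one, ne_eq,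
    OfNat.ofNat_ne_zero, not_false_eq_true, zero_pow, one_pow] at h h1 h2
  rw [h, h1]
  constructor
  · rw [div_mul_eq_mul_div, div_mul_eq_mul_div, sub_div' h2.ne', div_left_inj' h2.ne']
    linear_combination A.1 1 1 * hdet
  · rw [div_mul_eq_mul_div, div_mul_eq_mul_div, sub_div' h2.ne', ← neg_div,
      div_left_inj' h2.ne']
    linear_combination (-A.1 1 0) * hdet

theorem den_nsq_nonneg (A : Matrix (Fin 2) (Fin 2) ℝ) : 0 ≤ nsq A := by
  unfold nsq; positivity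

theorem den_nsq_mul (A B : Matrix (Fin 2) (Fin 2) ℝ) : nsq (A * B) ≤ nsq A * nsq B := by
  unfold nsq
  simp only [Matrix.mul_apply, Fin.sum_univ_two]
  nlinarith [sq_nonneg (A 0 0 * B 1 0 - A 0 1 * B 0 0), sq_nonneg (A 0 0 * B 1 1 - A 0 1 * B 0 1),
    sq_nonneg (A 1 0 * B 1 0 - A 1 1 * B 0 0), sq_nonneg (A 1 0 * B 1 1 - A 1 1 * B 0 1)]

theorem den_nsq_neg (A : Matrix (Fin 2) (Fin 2) ℝ) : nsq (-A) = nsq A := by
  unfold nsq
  simp

theorem den_nsq_inv (A : SL(2, ℝ)) : nsq (A⁻¹).1 = nsq A.1 := by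
  rw [Matrix.SpecialLinearGroup.coe_inv, Matrix.adjugate_fin_two]
  unfold nsq
  simp
  ring

theorem den_lower (A : SL(2, ℝ)) : 1 ≤ (A • (I : ℍ)).im * nsq A.1 := by
  have h := den_I_im A
  have h2 := (A • (I : ℍ)).im_pos
  unfold nsq
  nlinarith [mul_nonneg h2.le (sq_nonneg (A.1 0 0)), mul_nonneg h2.le (sq_nonneg (A.1 0 1))]

/-- A product `G T` is close to the matrices with image the point `G • I`. -/
theorem den_step1 (G : SL(2, ℝ)) (T : Matrix (Fin 2) (Fin 2) ℝ) (j : Fin 2) :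
    ((G.1 * T) 0 j - (G • (I : ℍ)).re * (G.1 * T) 1 j) ^ 2 ≤ (G • (I : ℍ)).im * nsq T := by
  obtain ⟨h1, h2⟩ := den_row G
  have h3 := den_I_im G
  have h4 := (G • (I : ℍ)).im_pos
  set x := (G • (I : ℍ)).re
  set y := (G • (I : ℍ)).im
  simp only [Matrix.mul_apply, Fin.sum_univ_two]
  have h5 : G.1 0 0 * T 0 j + G.1 0 1 * T 1 j - x * (G.1 1 0 * T 0 j + G.1 1 1 * T 1 j) =
      y * (G.1 1 1 * T 0 j - G.1 1 0 * T 1 j) := by
    linear_combination (T 0 j) * h1 + (T 1 j) * h2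
  rw [h5]
  have h6 : (G.1 1 1 * T 0 j - G.1 1 0 * T 1 j) ^ 2 ≤
      (G.1 1 0 ^ 2 + G.1 1 1 ^ 2) * (T 0 j ^ 2 + T 1 j ^ 2) := by
    nlinarith [sq_nonneg (G.1 1 1 * T 1 j + G.1 1 0 * T 0 j)]
  have h7 : T 0 j ^ 2 + T 1 j ^ 2 ≤ nsq T := by
    unfold nsq
    fin_cases j
    · simp
      nlinarith [sq_nonneg (T 0 1), sq_nonneg (T 1 1)]
    · simp
      nlinarith [sq_nonneg (T 0 0), sq_nonneg (T 1 0)]
  calc (y * (G.1 1 1 * T 0 j - G.1 1 0 * T 1 j)) ^ 2
      = y ^ 2 * (G.1 1 1 * T 0 j - G.1 1 0 * T 1 j) ^ 2 := by ring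
    _ ≤ y ^ 2 * ((G.1 1 0 ^ 2 + G.1 1 1 ^ 2) * (T 0 j ^ 2 + T 1 j ^ 2)) :=
        mul_le_mul_of_nonneg_left h6 (by positivity)
    _ = y * (y * (G.1 1 0 ^ 2 + G.1 1 1 ^ 2)) * (T 0 j ^ 2 + T 1 j ^ 2) := by ring
    _ = y * (T 0 j ^ 2 + T 1 j ^ 2) := by rw [h3, mul_one]
    _ ≤ y * nsq T := mul_le_mul_of_nonneg_left h7 h4.le

theorem den_step (G Fm H B : SL(2, ℝ)) (c CF : ℝ) (hc : 0 < c) (hF : nsq Fm.1 ≤ CF)
    (hcon : c * (nsq G.1 * nsq (H⁻¹).1) ≤ nsq (G.1 * Fm.1 * (H⁻¹).1))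
    (hB : B = G * Fm * H⁻¹ ∨ B = -(G * Fm * H⁻¹)) :
    (∀ j, (B.1 0 j - (G • (I : ℍ)).re * B.1 1 j) ^ 2 ≤
      (G • (I : ℍ)).im ^ 2 * (CF / c) * nsq B.1) ∧
    (B.1 1 1 + (H • (I : ℍ)).re * B.1 1 0) ^ 2 ≤ (H • (I : ℍ)).im ^ 2 * (CF / c) * nsq B.1 ∧
    c ≤ (G • (I : ℍ)).im * (H • (I : ℍ)).im * nsq B.1 := by
  have hG := den_lower G
  have hH := den_lower H
  have hGi := (G • (I : ℍ)).im_pos
  have hHi := (H • (I : ℍ)).im_pos
  have hG0 := den_nsq_nonneg G.1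
  have hH0 := den_nsq_nonneg H.1
  have hCF : 0 ≤ CF := (den_nsq_nonneg Fm.1).trans hF
  have hn : nsq B.1 = nsq (G.1 * Fm.1 * (H⁻¹).1) := by
    rcases hB with h | h
    · rw [h]; rfl
    · rw [h, Matrix.SpecialLinearGroup.coe_neg, den_nsq_neg]; rfl
  rw [← hn, den_nsq_inv] at hcon
  have hB0 := den_nsq_nonneg B.1
  -- nsq H ≤ y nsq B / c
  have hHb : nsq H.1 ≤ (G • (I : ℍ)).im * nsq B.1 / c := by
    rw [le_div_iff₀ hc]
    calc nsq H.1 * c = c * (1 * nsq H.1) := by ring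
      _ ≤ c * (((G • (I : ℍ)).im * nsq G.1) * nsq H.1) := by
          refine mul_le_mul_of_nonneg_left (mul_le_mul_of_nonneg_right hG hH0) hc.le
      _ = (G • (I : ℍ)).im * (c * (nsq G.1 * nsq H.1)) := by ring
      _ ≤ (G • (I : ℍ)).im * nsq B.1 := mul_le_mul_of_nonneg_left hcon hGi.le
  have hGb : nsq G.1 ≤ (H • (I : ℍ)).im * nsq B.1 / c := by
    rw [le_div_iff₀ hc]
    calc nsq G.1 * c = c * (nsq G.1 * 1) := by ring
      _ ≤ c * (nsq G.1 * ((H • (I : ℍ)).im * nsq H.1)) := by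
          refine mul_le_mul_of_nonneg_left (mul_le_mul_of_nonneg_left hH hG0) hc.le
      _ = (H • (I : ℍ)).im * (c * (nsq G.1 * nsq H.1)) := by ring
      _ ≤ (H • (I : ℍ)).im * nsq B.1 := mul_le_mul_of_nonneg_left hcon hHi.le
  refine ⟨fun j => ?_, ?_, ?_⟩
  · have h1 := den_step1 G (Fm.1 * (H⁻¹).1) j
    have h2 : nsq (Fm.1 * (H⁻¹).1) ≤ CF * ((G • (I : ℍ)).im * nsq B.1 / c) := by
      refine (den_nsq_mul _ _).trans ?_
      rw [den_nsq_inv]
      exact mul_le_mul hF hHb hH0 hCF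
    have h3 : (B.1 0 j - (G • (I : ℍ)).re * B.1 1 j) ^ 2 =
        ((G.1 * (Fm.1 * (H⁻¹).1)) 0 j - (G • (I : ℍ)).re * (G.1 * (Fm.1 * (H⁻¹).1)) 1 j) ^ 2 := by
      rw [← Matrix.mul_assoc]
      rcases hB with h | h
      · rw [h]; rfl
      · rw [h, Matrix.SpecialLinearGroup.coe_neg]
        have h4 : (G * Fm * H⁻¹).1 = G.1 * Fm.1 * (H⁻¹).1 := rfl
        rw [h4, Matrix.neg_apply, Matrix.neg_apply]
        ring
    rw [h3]
    calc _ ≤ (G • (I : ℍ)).im * nsq (Fm.1 * (H⁻¹).1) := h1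
      _ ≤ (G • (I : ℍ)).im * (CF * ((G • (I : ℍ)).im * nsq B.1 / c)) :=
          mul_le_mul_of_nonneg_left h2 hGi.le
      _ = _ := by ring
  · -- the inverse
    have h1 := den_step1 H ((Fm⁻¹).1 * (G⁻¹).1) 0
    have h2 : nsq ((Fm⁻¹).1 * (G⁻¹).1) ≤ CF * ((H • (I : ℍ)).im * nsq B.1 / c) := by
      refine (den_nsq_mul _ _).trans ?_
      rw [den_nsq_inv, den_nsq_inv]
      exact mul_le_mul hF hGb hG0 hCF
    have h3 : (B.1 1 1 + (H • (I : ℍ)).re * B.1 1 0) ^ 2 =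
        ((H.1 * ((Fm⁻¹).1 * (G⁻¹).1)) 0 0 - (H • (I : ℍ)).re *
          (H.1 * ((Fm⁻¹).1 * (G⁻¹).1)) 1 0) ^ 2 := by
      have h5 : H.1 * ((Fm⁻¹).1 * (G⁻¹).1) = ((G * Fm * H⁻¹)⁻¹).1 := by
        have h6 : (G * Fm * H⁻¹)⁻¹ = H * (Fm⁻¹ * G⁻¹) := by group
        rw [h6]; rfl
      rw [h5, Matrix.SpecialLinearGroup.coe_inv, Matrix.adjugate_fin_two]
      rcases hB with h | h
      · rw [h]; simp
      · rw [h, Matrix.SpecialLinearGroup.coe_neg]
        simp only [Matrix.neg_apply, Matrix.of_apply, Matrix.cons_val', Matrix.cons_val_zero,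
          Matrix.cons_val_one, Matrix.cons_val_fin_one]
        ring
    rw [h3]
    calc _ ≤ (H • (I : ℍ)).im * nsq ((Fm⁻¹).1 * (G⁻¹).1) := h1
      _ ≤ (H • (I : ℍ)).im * (CF * ((H • (I : ℍ)).im * nsq B.1 / c)) :=
          mul_le_mul_of_nonneg_left h2 hHi.le
      _ = _ := by ring
  · calc c = c * (1 * 1) := by ring
      _ ≤ c * (((G • (I : ℍ)).im * nsq G.1) * ((H • (I : ℍ)).im * nsq H.1)) := by
          refine mul_le_mul_of_nonneg_left (mul_le_mul hG hH (by norm_num) ?_) hc.le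
          positivity
      _ = (G • (I : ℍ)).im * (H • (I : ℍ)).im * (c * (nsq G.1 * nsq H.1)) := by ring
      _ ≤ _ := mul_le_mul_of_nonneg_left hcon (by positivity)

/-- The limit computation. -/
theorem den_limit (B : ℕ → SL(2, ℝ)) (x x' y y' : ℕ → ℝ) (ξ η c C : ℝ) (hc : 0 < c)
    (hξ : 0 < ξ) (hη : η < 0)
    (hx : Tendsto x atTop (𝓝 ξ)) (hx' : Tendsto x' atTop (𝓝 η))
    (hy : Tendsto y atTop (𝓝 0)) (hy' : Tendsto y' atTop (𝓝 0))
    (hyp : ∀ n, 0 < y n) (hyp' : ∀ n, 0 < y' n)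
    (h1 : ∀ n j, ((B n).1 0 j - x n * (B n).1 1 j) ^ 2 ≤ y n ^ 2 * C * nsq (B n).1)
    (h2 : ∀ n, ((B n).1 1 1 + x' n * (B n).1 1 0) ^ 2 ≤ y' n ^ 2 * C * nsq (B n).1)
    (h3 : ∀ n, c ≤ y n * y' n * nsq (B n).1) (h00 : ∀ n, 0 ≤ (B n).1 0 0) (Θ : ℝ) :
    (∀ᶠ n in atTop, (∀ i j, 0 < (B n).1 i j) ∧ Θ ≤ (B n).1 0 1 * (B n).1 1 0) ∧
    Tendsto (fun n => xi (B n)) atTop (𝓝 ξ) ∧ Tendsto (fun n => et (B n)) atTop (𝓝 η) := by
  set N : ℕ → ℝ := fun n => √(nsq (B n).1) with hN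
  have hNsq : ∀ n, N n ^ 2 = nsq (B n).1 := fun n => Real.sq_sqrt (den_nsq_nonneg _)
  have hnpos : ∀ n, 0 < nsq (B n).1 := by
    intro n
    have h4 := h3 n
    have h5 := mul_pos (hyp n) (hyp' n)
    by_contra h
    rw [not_lt] at h
    nlinarith [mul_nonneg h5.le (neg_nonneg.2 h)]
  have hNpos : ∀ n, 0 < N n := fun n => Real.sqrt_pos.2 (hnpos n)
  have hNinf : Tendsto (fun n => N n ^ 2) atTop atTop := by
    have h4 : Tendsto (fun n => y n * y' n) atTop (𝓝[>] 0) := by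
      refine tendsto_nhdsWithin_iff.2 ⟨?_, Eventually.of_forall fun n => mul_pos (hyp n) (hyp' n)⟩
      simpa using hy.mul hy'
    have h5 : Tendsto (fun n => c * (y n * y' n)⁻¹) atTop atTop :=
      (tendsto_inv_nhdsGT_zero.comp h4).const_mul_atTop hc
    refine tendsto_atTop_mono (fun n => ?_) h5
    rw [hNsq, ← div_eq_mul_inv, div_le_iff₀ (mul_pos (hyp n) (hyp' n))]
    linarith [h3 n]
  -- normalised entries
  set p : ℕ → ℝ := fun n => (B n).1 0 0 / N n with hp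
  set q : ℕ → ℝ := fun n => (B n).1 0 1 / N n with hq
  set r : ℕ → ℝ := fun n => (B n).1 1 0 / N n with hr
  set s : ℕ → ℝ := fun n => (B n).1 1 1 / N n with hs
  have hsum : ∀ n, p n ^ 2 + q n ^ 2 + r n ^ 2 + s n ^ 2 = 1 := by
    intro n
    have h4 := (hNpos n).ne'
    have h5 := hNsq n
    unfold nsq at h5
    simp only [hp, hq, hr, hs, div_pow]
    rw [← add_div, ← add_div, ← add_div, ← h5]
    exact div_self (by positivity)
  have hzero : ∀ (u v : ℕ → ℝ), (∀ n, u n ^ 2 ≤ v n ^ 2 * C * nsq (B n).1) →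
      Tendsto v atTop (𝓝 0) → Tendsto (fun n => u n / N n) atTop (𝓝 0) := by
    intro u v huv hv
    have h4 : Tendsto (fun n => (u n / N n) ^ 2) atTop (𝓝 0) := by
      have h5 : Tendsto (fun n => v n ^ 2 * C) atTop (𝓝 0) := by
        simpa using (hv.pow 2).mul_const C
      refine tendsto_of_tendsto_of_tendsto_of_le_of_le tendsto_const_nhds h5
        (fun n => sq_nonneg _) (fun n => ?_)
      change (u n / N n) ^ 2 ≤ v n ^ 2 * C
      rw [div_pow, hNsq, div_le_iff₀ (hnpos n)]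
      exact huv n
    have h6 := h4.sqrt
    rw [Real.sqrt_zero] at h6
    have h7 : (fun n => √((u n / N n) ^ 2)) = fun n => |u n / N n| := by
      funext n; exact Real.sqrt_sq_eq_abs _
    rw [h7] at h6
    exact (tendsto_zero_iff_abs_tendsto_zero _).2 h6
  have hle : ∀ n, |p n| ≤ 1 ∧ |q n| ≤ 1 ∧ |r n| ≤ 1 ∧ |s n| ≤ 1 := by
    intro n
    have h4 := hsum n
    refine ⟨?_, ?_, ?_, ?_⟩ <;> rw [← sq_le_one_iff_abs_le_one] <;>
      nlinarith [sq_nonneg (p n), sq_nonneg (q n), sq_nonneg (r n), sq_nonneg (s n)]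
  have hbz : ∀ (u v : ℕ → ℝ) (l : ℝ), (∀ n, |u n| ≤ 1) → Tendsto v atTop (𝓝 l) →
      Tendsto (fun n => (v n - l) * u n) atTop (𝓝 0) := by
    intro u v l hu hv
    have h4 : Tendsto (fun n => v n - l) atTop (𝓝 0) := by
      simpa using hv.sub_const l
    refine squeeze_zero_norm (fun n => ?_) (tendsto_norm_zero.comp h4)
    change ‖(v n - l) * u n‖ ≤ ‖v n - l‖
    rw [norm_mul]
    exact mul_le_of_le_one_right (norm_nonneg _) (hu n)
  -- p - ξ r → 0
  have e1 : Tendsto (fun n => p n - ξ * r n) atTop (𝓝 0) := by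
    have h4 := hzero (fun n => (B n).1 0 0 - x n * (B n).1 1 0) y (fun n => h1 n 0) hy
    have h5 := hbz r x ξ (fun n => (hle n).2.2.1) hx
    have h6 := h4.add h5
    rw [add_zero] at h6
    refine h6.congr fun n => ?_
    simp only [hp, hr]
    ring
  have e2 : Tendsto (fun n => q n - ξ * s n) atTop (𝓝 0) := by
    have h4 := hzero (fun n => (B n).1 0 1 - x n * (B n).1 1 1) y (fun n => h1 n 1) hy
    have h5 := hbz s x ξ (fun n => (hle n).2.2.2) hx
    have h6 := h4.add h5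
    rw [add_zero] at h6
    refine h6.congr fun n => ?_
    simp only [hq, hs]
    ring
  have e3 : Tendsto (fun n => s n + η * r n) atTop (𝓝 0) := by
    have h4 := hzero (fun n => (B n).1 1 1 + x' n * (B n).1 1 0) y' h2 hy'
    have h5 := hbz r x' η (fun n => (hle n).2.2.1) hx'
    have h6 := h4.sub h5
    rw [sub_zero] at h6
    refine h6.congr fun n => ?_
    simp only [hs, hr]
    ring
  have e4 : Tendsto (fun n => q n + ξ * η * r n) atTop (𝓝 0) := by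
    have h4 := e2.add (e3.const_mul ξ)
    simp only [mul_zero, add_zero] at h4
    refine h4.congr fun n => ?_
    ring
  -- r^2
  set ρ : ℝ := 1 / ((1 + ξ ^ 2) * (1 + η ^ 2)) with hρ
  have hρpos : 0 < ρ := by positivity
  have hmulb : ∀ (u v : ℕ → ℝ) (K : ℝ), (∀ n, |u n| ≤ K) → Tendsto v atTop (𝓝 0) →
      Tendsto (fun n => v n * u n) atTop (𝓝 0) := by
    intro u v K hu hv
    have h4 : Tendsto (fun n => ‖v n‖ * K) atTop (𝓝 0) := by
      simpa using (tendsto_norm_zero.comp hv).mul_const K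
    refine squeeze_zero_norm (fun n => ?_) h4
    rw [norm_mul]
    exact mul_le_mul_of_nonneg_left (hu n) (norm_nonneg _)
  have hr2 : Tendsto (fun n => r n ^ 2) atTop (𝓝 ρ) := by
    have t1 := hmulb (fun n => p n + ξ * r n) _ (1 + ξ) (fun n => by
      have := hle n
      calc |p n + ξ * r n| ≤ |p n| + |ξ * r n| := abs_add_le _ _
        _ ≤ 1 + ξ * 1 := by
            rw [abs_mul, abs_of_pos hξ]
            exact add_le_add this.1 (mul_le_mul_of_nonneg_left this.2.2.1 hξ.le)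
        _ = 1 + ξ := by ring) e1
    have t2 := hmulb (fun n => q n - ξ * η * r n) _ (1 + ξ * |η|) (fun n => by
      have := hle n
      calc |q n - ξ * η * r n| ≤ |q n| + |ξ * η * r n| := abs_sub _ _
        _ ≤ 1 + ξ * |η| * 1 := by
            rw [abs_mul, abs_mul, abs_of_pos hξ]
            exact add_le_add this.2.1 (mul_le_mul_of_nonneg_left this.2.2.1 (by positivity))
        _ = _ := by ring) e4
    have t3 := hmulb (fun n => s n - η * r n) _ (1 + |η|) (fun n => by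
      have := hle n
      calc |s n - η * r n| ≤ |s n| + |η * r n| := abs_sub _ _
        _ ≤ 1 + |η| * 1 := by
            rw [abs_mul]
            exact add_le_add this.2.2.2 (mul_le_mul_of_nonneg_left this.2.2.1 (abs_nonneg _))
        _ = _ := by ring) e3
    have t4 : Tendsto (fun n => (1 - ((p n - ξ * r n) * (p n + ξ * r n) +
        (q n + ξ * η * r n) * (q n - ξ * η * r n) + (s n + η * r n) * (s n - η * r n))) * ρ)
        atTop (𝓝 ((1 - (0 + 0 + 0)) * ρ)) :=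
      ((tendsto_const_nhds.sub ((t1.add t2).add t3))).mul_const ρ
    have t5 : (1 - (0 + 0 + 0)) * ρ = ρ := by ring
    rw [t5] at t4
    refine t4.congr fun n => ?_
    have h4 := hsum n
    have h5 : (1 : ℝ) - ((p n - ξ * r n) * (p n + ξ * r n) +
        (q n + ξ * η * r n) * (q n - ξ * η * r n) + (s n + η * r n) * (s n - η * r n)) =
        r n ^ 2 * ((1 + ξ ^ 2) * (1 + η ^ 2)) := by
      linear_combination -h4
    rw [h5, hρ]
    field_simp
  have hpr : Tendsto (fun n => p n * r n) atTop (𝓝 (ξ * ρ)) := by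
    have t1 := (hmulb r _ 1 (fun n => (hle n).2.2.1) e1).add (hr2.const_mul ξ)
    rw [zero_add] at t1
    refine t1.congr fun n => ?_
    ring
  have hsr : Tendsto (fun n => s n * r n) atTop (𝓝 (-η * ρ)) := by
    have t1 := (hmulb r _ 1 (fun n => (hle n).2.2.1) e3).add (hr2.const_mul (-η))
    rw [zero_add] at t1
    refine t1.congr fun n => ?_
    ring
  have hqr : Tendsto (fun n => q n * r n) atTop (𝓝 (-(ξ * η) * ρ)) := by
    have t1 := (hmulb r _ 1 (fun n => (hle n).2.2.1) e4).add (hr2.const_mul (-(ξ * η)))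
    rw [zero_add] at t1
    refine t1.congr fun n => ?_
    ring
  -- signs
  have hev : ∀ᶠ n in atTop, 0 < p n * r n ∧ 0 < s n * r n ∧ 0 < q n * r n := by
    have u1 := hpr.eventually (lt_mem_nhds (by positivity : 0 < ξ * ρ))
    have u2 := hsr.eventually (lt_mem_nhds (by
      have : 0 < -η := by linarith
      positivity : 0 < -η * ρ))
    have u3 := hqr.eventually (lt_mem_nhds (by
      have : 0 < -(ξ * η) := by nlinarith
      positivity : 0 < -(ξ * η) * ρ))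
    filter_upwards [u1, u2, u3] with n a1 a2 a3
    exact ⟨a1, a2, a3⟩
  have hevpos : ∀ᶠ n in atTop, ∀ i j, 0 < (B n).1 i j := by
    filter_upwards [hev] with n hn
    have h4 : 0 ≤ p n := div_nonneg (h00 n) (hNpos n).le
    have hr0 : 0 < r n := by
      by_contra h
      rw [not_lt] at h
      nlinarith [mul_nonneg h4 (neg_nonneg.2 h)]
    have hp0 : 0 < p n := (mul_pos_iff_of_pos_right hr0).1 hn.1
    have hs0 : 0 < s n := (mul_pos_iff_of_pos_right hr0).1 hn.2.1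
    have hq0 : 0 < q n := (mul_pos_iff_of_pos_right hr0).1 hn.2.2
    intro i j
    fin_cases i <;> fin_cases j
    · exact (div_pos_iff_of_pos_right (hNpos n)).1 hp0
    · exact (div_pos_iff_of_pos_right (hNpos n)).1 hq0
    · exact (div_pos_iff_of_pos_right (hNpos n)).1 hr0
    · exact (div_pos_iff_of_pos_right (hNpos n)).1 hs0
  have hqrN : Tendsto (fun n => (B n).1 0 1 * (B n).1 1 0) atTop atTop := by
    have h4 : 0 < -(ξ * η) * ρ := by
      have : 0 < -(ξ * η) := by nlinarith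
      positivity
    refine (Tendsto.pos_mul_atTop h4 hqr hNinf).congr fun n => ?_
    have := (hNpos n).ne'
    simp only [hq, hr]
    field_simp
  -- ratios
  have hP : Tendsto (fun n => (B n).1 0 0 / (B n).1 1 0) atTop (𝓝 ξ) := by
    have t1 := hpr.div hr2 hρpos.ne'
    rw [mul_div_cancel_right₀ _ hρpos.ne'] at t1
    refine t1.congr' ?_
    filter_upwards [hevpos] with n hn
    have h4 := (hNpos n).ne'
    have h5 := (hn 1 0).ne'
    simp only [Pi.div_apply, hp, hr]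
    field_simp
  have hS : Tendsto (fun n => (B n).1 1 1 / (B n).1 1 0) atTop (𝓝 (-η)) := by
    have t1 := hsr.div hr2 hρpos.ne'
    rw [mul_div_cancel_right₀ _ hρpos.ne'] at t1
    refine t1.congr' ?_
    filter_upwards [hevpos] with n hn
    have h4 := (hNpos n).ne'
    have h5 := (hn 1 0).ne'
    simp only [Pi.div_apply, hs, hr]
    field_simp
  have hR : Tendsto (fun n => 4 / (B n).1 1 0 ^ 2) atTop (𝓝 0) := by
    have t1 : Tendsto (fun n => (B n).1 1 0 ^ 2) atTop atTop := by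
      refine (Tendsto.pos_mul_atTop hρpos hr2 hNinf).congr fun n => ?_
      have := (hNpos n).ne'
      simp only [hr]
      field_simp
    exact t1.const_div_atTop 4
  have hsq : Tendsto (fun n => √(((B n).1 0 0 / (B n).1 1 0 + (B n).1 1 1 / (B n).1 1 0) ^ 2 -
      4 / (B n).1 1 0 ^ 2)) atTop (𝓝 (ξ - η)) := by
    have t1 := (((hP.add hS).pow 2).sub hR).sqrt
    have t2 : √((ξ + -η) ^ 2 - 0) = ξ - η := by
      rw [sub_zero, Real.sqrt_sq (by linarith)]; ring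
    rw [t2] at t1
    exact t1
  have hform : ∀ᶠ n in atTop, √(((B n).1 0 0 + (B n).1 1 1) ^ 2 - 4) / (B n).1 1 0 =
      √((((B n).1 0 0 / (B n).1 1 0 + (B n).1 1 1 / (B n).1 1 0)) ^ 2 -
        4 / (B n).1 1 0 ^ 2) := by
    filter_upwards [hevpos] with n hn
    have h5 := hn 1 0
    have h6 : ((B n).1 0 0 / (B n).1 1 0 + (B n).1 1 1 / (B n).1 1 0) ^ 2 -
        4 / (B n).1 1 0 ^ 2 = (((B n).1 0 0 + (B n).1 1 1) ^ 2 - 4) / (B n).1 1 0 ^ 2 := by
      field_simp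
    rw [h6, Real.sqrt_div' _ (by positivity), Real.sqrt_sq h5.le]
  refine ⟨?_, ?_, ?_⟩
  · filter_upwards [hevpos, hqrN.eventually_ge_atTop Θ] with n a1 a2
    exact ⟨a1, a2⟩
  · have t1 := ((hP.sub hS).add hsq).div_const 2
    have t2 : (ξ - -η + (ξ - η)) / 2 = ξ := by ring
    rw [t2] at t1
    refine t1.congr' ?_
    filter_upwards [hevpos, hform] with n hn hf
    have h5 := (hn 1 0).ne'
    rw [← hf]
    unfold xi
    field_simp
  · have t1 := ((hP.sub hS).sub hsq).div_const 2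
    have t2 : (ξ - -η - (ξ - η)) / 2 = η := by ring
    rw [t2] at t1
    refine t1.congr' ?_
    filter_upwards [hevpos, hform] with n hn hf
    have h5 := (hn 1 0).ne'
    rw [← hf]
    unfold et
    field_simp

/-- Orbit points converging to a boundary point. -/
theorem den_orbit (X : Fuchs Γ) (t : ℝ) : ∃ g : ℕ → Γ,
    Tendsto (fun n => (X.M (g n) • (I : ℍ)).re) atTop (𝓝 t) ∧
    Tendsto (fun n => (X.M (g n) • (I : ℍ)).im) atTop (𝓝 0) := by
  obtain ⟨R, hR⟩ := X.cocpt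
  have hz : ∀ n : ℕ, 0 < 1 / ((n : ℝ) + 1) := fun n => by positivity
  have hex : ∀ n : ℕ, ∃ g, dist (⟨⟨t, 1 / ((n : ℝ) + 1)⟩, hz n⟩ : ℍ) (X.M g • (I : ℍ)) ≤ R :=
    fun n => hR _
  choose g hg using hex
  have h0 : Tendsto (fun n : ℕ => 1 / ((n : ℝ) + 1)) atTop (𝓝 0) :=
    tendsto_one_div_add_atTop_nhds_zero_nat
  have hb : ∀ n, ‖((X.M (g n) • (I : ℍ) : ℍ) : ℂ) - ⟨t, 1 / ((n : ℝ) + 1)⟩‖ ≤
      1 / ((n : ℝ) + 1) * (Real.exp R - 1) := by
    intro n
    have h1 := UpperHalfPlane.dist_coe_le (X.M (g n) • (I : ℍ))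
      (⟨⟨t, 1 / ((n : ℝ) + 1)⟩, hz n⟩ : ℍ)
    rw [dist_eq_norm] at h1
    refine h1.trans ?_
    refine mul_le_mul_of_nonneg_left ?_ (hz n).le
    have h2 := hg n
    rw [dist_comm] at h2
    linarith [Real.exp_le_exp.2 h2]
  have h1 : Tendsto (fun n : ℕ => 1 / ((n : ℝ) + 1) * (Real.exp R - 1)) atTop (𝓝 0) := by
    simpa using h0.mul_const (Real.exp R - 1)
  refine ⟨g, ?_, ?_⟩
  · rw [tendsto_iff_norm_sub_tendsto_zero]
    refine squeeze_zero (fun n => norm_nonneg _) (fun n => ?_) h1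
    refine le_trans ?_ (hb n)
    have h2 := Complex.abs_re_le_norm (((X.M (g n) • (I : ℍ) : ℍ) : ℂ) - ⟨t, 1 / ((n : ℝ) + 1)⟩)
    rw [Complex.sub_re] at h2
    exact h2
  · have h3 : Tendsto (fun n => (X.M (g n) • (I : ℍ)).im - 1 / ((n : ℝ) + 1)) atTop (𝓝 0) := by
      refine squeeze_zero_norm (fun n => ?_) h1
      refine le_trans ?_ (hb n)
      have h2 := Complex.abs_im_le_norm
        (((X.M (g n) • (I : ℍ) : ℍ) : ℂ) - ⟨t, 1 / ((n : ℝ) + 1)⟩)
      rw [Complex.sub_im] at h2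
      exact h2
    have h4 := h3.add h0
    rw [add_zero] at h4
    refine h4.congr fun n => ?_
    ring

theorem den_main (hC : ST_CONN) (X : Fuchs Γ) (Θ ξ η : ℝ) (hξ : 0 < ξ) (hη : η < 0) :
    ∃ a : ℕ → Γ, (∀ᶠ n in atTop, a n ∈ Pos X Θ) ∧
      Tendsto (fun n => xiG X (a n)) atTop (𝓝 ξ) ∧
      Tendsto (fun n => etG X (a n)) atTop (𝓝 η) := by
  obtain ⟨F, c, hc, hF⟩ := hC X
  obtain ⟨g, hg1, hg2⟩ := den_orbit X ξ
  obtain ⟨h, hh1, hh2⟩ := den_orbit X η
  obtain ⟨CF, hCF⟩ : ∃ CF : ℝ, ∀ f ∈ F, nsq (X.M f).1 ≤ CF := by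
    refine ⟨∑ f ∈ F, nsq (X.M f).1, fun f hf => ?_⟩
    exact Finset.single_le_sum (f := fun f => nsq (X.M f).1) (fun f _ => den_nsq_nonneg _) hf
  have hex : ∀ n, ∃ f ∈ F, c * (nsq (X.M (g n)).1 * nsq ((X.M (h n))⁻¹).1) ≤
      nsq ((X.M (g n)).1 * (X.M f).1 * ((X.M (h n))⁻¹).1) := fun n => hF _ _
  choose f hfF hf using hex
  set a : ℕ → Γ := fun n => g n * f n * (h n)⁻¹ with ha
  have hMa : ∀ n, X.M (a n) = X.M (g n) * X.M (f n) * (X.M (h n))⁻¹ ∨
      X.M (a n) = -(X.M (g n) * X.M (f n) * (X.M (h n))⁻¹) := by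
    intro n
    rcases X.mul' (g n * f n) (h n)⁻¹ with h1 | h1 <;> rcases X.mul' (g n) (f n) with h2 | h2 <;>
      rcases X.M_inv (h n) with h3 | h3 <;> simp only [ha] <;> rw [h1, h2, h3] <;> simp
  have hpm : ∀ n, pm X (a n) = X.M (g n) * X.M (f n) * (X.M (h n))⁻¹ ∨
      pm X (a n) = -(X.M (g n) * X.M (f n) * (X.M (h n))⁻¹) := by
    intro n
    unfold pm
    split_ifs
    · exact hMa n
    · rcases hMa n with h1 | h1
      · right; rw [h1]
      · left; rw [h1, neg_neg]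
  have hstep := fun n => den_step (X.M (g n)) (X.M (f n)) (X.M (h n)) (pm X (a n)) c CF hc
    (hCF _ (hfF n)) (hf n) (hpm n)
  obtain ⟨h1, h2, h3⟩ := den_limit (fun n => pm X (a n))
    (fun n => (X.M (g n) • (I : ℍ)).re) (fun n => (X.M (h n) • (I : ℍ)).re)
    (fun n => (X.M (g n) • (I : ℍ)).im) (fun n => (X.M (h n) • (I : ℍ)).im) ξ η c (CF / c) hc
    hξ hη hg1 hh1 hg2 hh2 (fun n => (X.M (g n) • (I : ℍ)).im_pos)
    (fun n => (X.M (h n) • (I : ℍ)).im_pos) (fun n j => (hstep n).1 j) (fun n => (hstep n).2.1)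
    (fun n => (hstep n).2.2) (fun n => by
      unfold pm
      split_ifs with h4
      · exact h4.le
      · rw [Matrix.SpecialLinearGroup.coe_neg, Matrix.neg_apply]
        linarith) Θ
  refine ⟨a, ?_, h2, h3⟩
  filter_upwards [h1] with n hn
  refine ⟨(pm X (a n)).1 0 0, (pm X (a n)).1 0 1, (pm X (a n)).1 1 0, (pm X (a n)).1 1 1,
    hn.1 0 0, hn.1 0 1, hn.1 1 0, hn.1 1 1, hn.2, ?_⟩
  have h5 : !![(pm X (a n)).1 0 0, (pm X (a n)).1 0 1; (pm X (a n)).1 1 0, (pm X (a n)).1 1 1] =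
      (pm X (a n)).1 := (Matrix.eta_fin_two _).symm
  rw [h5]
  unfold pm
  split_ifs
  · exact Or.inl rfl
  · right
    rw [Matrix.SpecialLinearGroup.coe_neg, neg_neg]

/-- Module DEN. -/
theorem st_DEN (hC : ST_CONN) : ST_DEN := by
  intro Γ _ X Θ _
  constructor
  · intro s
    obtain ⟨a, h1, h2, -⟩ := den_main hC X.toFuchs Θ (Real.exp s) (-1) (Real.exp_pos s)
      (by norm_num)
    have h3 : Tendsto (fun n => Real.log (xiG X.toFuchs (a n))) atTop (𝓝 s) := by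
      have h4 := h2.log (Real.exp_pos s).ne'
      rwa [Real.log_exp] at h4
    refine mem_closure_of_tendsto h3 ?_
    filter_upwards [h1] with n hn
    exact ⟨a n, hn, rfl⟩
  · intro s
    obtain ⟨a, h1, -, h2⟩ := den_main hC X.toFuchs Θ 1 (-Real.exp s) one_pos
      (by linarith [Real.exp_pos s])
    have h3 : Tendsto (fun n => Real.log (-etG X.toFuchs (a n))) atTop (𝓝 s) := by
      have h4 := h2.neg.log (by rw [neg_neg]; exact (Real.exp_pos s).ne')
      rwa [neg_neg, Real.log_exp] at h4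
    refine mem_closure_of_tendsto h3 ?_
    filter_upwards [h1] with n hn
    exact ⟨a n, hn, rfl⟩

end Pool.Agent.Helper12.GM
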